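import Mathlib
import Pool.Agent.V11182.LCount
import Pool.Agent.V11182.LLower

/-!
# Counting antichains in the restricted Young lattice `L(n,n)`

`log₂ A(n) = Θ( C(2n,n) / n^{3/2} )`, where `A(n)` is the number of antichains of `L(n,n)`.
-/

namespace Pool.Agent.Results.MP_269158_co.ThetaOrder

open Finset Pool.Agent.V11182.LFlow Pool.Agent.V11182.LTransfer Pool.Agent.V11182.LCount
  Pool.Agent.V11182.LLower Filter Asymptotics

/-- `L(n,n)`: partitions `λ₁ ≥ λ₂ ≥ ⋯ ≥ λ_n ≥ 0` with `λ₁ ≤ n`, ordered componentwise. -/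
abbrev L (n : ℕ) : Type := {f : Fin n → Fin (n + 1) // Antitone f}

/-- `A(n)`: the number of antichains of `L(n,n)`, the empty one included. -/
noncomputable def A (n : ℕ) : ℕ := Nat.card {S : Set (L n) // IsAntichain (· ≤ ·) S}

/-- reversed sequence -/
def rv {n : ℕ} (x : L n) : Fin n → Fin (n + 1) := fun i => x.1 i.rev

lemma rv_mono {n : ℕ} (x : L n) : Monotone (rv x) := by
  intro i j hij
  exact x.2 (Fin.rev_le_rev.mpr hij)

lemma rv_le {n : ℕ} {x y : L n} (h : rv x ≤ rv y) : x ≤ y := by
  intro i
  have := h i.rev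
  simpa [rv] using this

lemma rv_inj {n : ℕ} {x y : L n} (h : rv x = rv y) : x = y :=
  le_antisymm (rv_le h.le) (rv_le h.ge)

lemma rv_lt {n : ℕ} {x y : L n} (h : x < y) : rv x < rv y := by
  refine lt_of_le_of_ne (fun i => h.le i.rev) ?_
  intro h1
  exact h.ne (rv_inj h1)

/-- the associated `n`-subset -/
def psi {n : ℕ} (x : L n) : Finset ℕ := phi n (rv x)

lemma psi_inj (n : ℕ) : Function.Injective (psi (n := n)) := by
  intro x y h
  exact rv_inj (phi_inj (rv_mono x) (rv_mono y) h)

lemma psi_le {n : ℕ} {x y : L n} (h : le (psi x) (psi y)) : x ≤ y :=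
  rv_le (le_of_le_phi (rv_mono x) (rv_mono y) h)

lemma A_le (n : ℕ) : A n ≤ (indep lt (Om n)).card := by
  classical
  have hcard : Nat.card {T : Finset (Finset ℕ) // T ∈ indep lt (Om n)} = (indep lt (Om n)).card := by
    simp
  rw [← hcard, A]
  refine Nat.card_le_card_of_injective
    (fun S => ⟨(Set.toFinite S.1).toFinset.image psi, ?_⟩) ?_
  · rw [mem_indep]
    constructor
    · intro B hB
      rw [mem_image] at hB
      obtain ⟨x, _, rfl⟩ := hB
      exact phi_mem (rv_mono x)
    · intro B hB C hC hBC
      rw [mem_image] at hB hC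
      obtain ⟨x, hx, rfl⟩ := hB
      obtain ⟨y, hy, rfl⟩ := hC
      rw [Set.Finite.mem_toFinset] at hx hy
      have hxy : x ≤ y := psi_le hBC.1
      have hne : x ≠ y := by
        rintro rfl
        exact hBC.2 rfl
      exact S.2 hx hy hne hxy
  · intro S S' h
    simp only [Subtype.mk.injEq] at h
    have h1 := image_injective (psi_inj n) h
    rw [Set.Finite.toFinset_inj] at h1
    exact Subtype.ext h1

lemma A_ge (n r : ℕ) : 2 ^ ((Om n).filter (fun B => rk B = r)).card ≤ A n := by
  classical
  set Lr : Finset (L n) := univ.filter (fun x => rk (psi x) = r) with hLr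
  have h1 : ((Om n).filter (fun B => rk B = r)).card ≤ Lr.card := by
    calc ((Om n).filter (fun B => rk B = r)).card ≤ (Lr.image psi).card := by
          apply card_le_card
          intro B hB
          rw [mem_filter] at hB
          obtain ⟨x, hx, hxB⟩ := phi_surj hB.1
          have hanti : Antitone (fun i : Fin n => x i.rev) := by
            intro i j hij
            exact hx (Fin.rev_le_rev.mpr hij)
          have hrv : rv (⟨fun i => x i.rev, hanti⟩ : L n) = x := by
            funext i
            simp [rv]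
          have hpsi : psi (⟨fun i => x i.rev, hanti⟩ : L n) = B := by
            rw [psi, hrv, hxB]
          rw [mem_image]
          refine ⟨⟨fun i => x i.rev, hanti⟩, ?_, hpsi⟩
          rw [hLr, mem_filter, hpsi]
          exact ⟨mem_univ _, hB.2⟩
      _ ≤ Lr.card := card_image_le
  have h2 : 2 ^ Lr.card ≤ A n := by
    have hcard : Nat.card {T : Finset (L n) // T ∈ Lr.powerset} = 2 ^ Lr.card := by
      rw [← card_powerset, Nat.card_eq_fintype_card]
      exact Fintype.card_coe _
    rw [← hcard, A]
    refine Nat.card_le_card_of_injective (fun T => ⟨(T.1 : Set (L n)), ?_⟩) ?_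
    · intro x hx y hy hne hxy
      have hT := mem_powerset.mp T.2
      have hx' := (mem_filter.mp (hT hx)).2
      have hy' := (mem_filter.mp (hT hy)).2
      have hlt : x < y := lt_of_le_of_ne hxy hne
      have := rk_lt (rv_mono x) (rv_mono y) (rv_lt hlt)
      change rk (psi x) < rk (psi y) at this
      omega
    · intro T T' h
      simp only [Subtype.mk.injEq] at h
      exact Subtype.ext (coe_injective h)
  exact (pow_le_pow_right₀ (by norm_num) h1).trans h2

lemma sqrt_cube {n : ℕ} (hn : 1 ≤ n) : Real.sqrt ((n : ℝ) ^ 3) = (n : ℝ) ^ ((3 : ℝ) / 2) := by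
  have hnpos : (0 : ℝ) < n := by exact_mod_cast hn
  rw [Real.sqrt_eq_rpow, ← Real.rpow_natCast, ← Real.rpow_mul hnpos.le]
  norm_num

/-- **The asymptotic order of the logarithm of the number of antichains of `L(n,n)`.** -/
theorem result : (fun n : ℕ => Real.logb 2 (A n)) =Θ[atTop]
    (fun n : ℕ => ((2 * n).choose n : ℝ) / (n : ℝ) ^ ((3 : ℝ) / 2)) := by
  obtain ⟨k₀, hk₀⟩ := count_upper
  constructor
  · apply IsBigO.of_bound 5000
    filter_upwards [eventually_ge_atTop k₀, eventually_ge_atTop 1] with n hn hn1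
    have h1 := hk₀ n hn
    rw [card_Om, sqrt_cube hn1] at h1
    have hA : 1 ≤ A n := le_trans Nat.one_le_two_pow (A_ge n 0)
    have hA' : (1 : ℝ) ≤ A n := by exact_mod_cast hA
    have h0 : 0 ≤ Real.logb 2 (A n) := Real.logb_nonneg (by norm_num) hA'
    have h2 : Real.logb 2 (A n) ≤ Real.logb 2 ((indep lt (Om n)).card : ℝ) := by
      apply Real.logb_le_logb_of_le (by norm_num) (by linarith)
      exact_mod_cast A_le n
    rw [Real.norm_of_nonneg h0, Real.norm_of_nonneg (by positivity)]
    exact h2.trans h1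
  · apply IsBigO.of_bound (20 / 3)
    filter_upwards [eventually_ge_atTop 1] with n hn1
    obtain ⟨r, hr⟩ := level_big n hn1
    rw [card_Om, sqrt_cube hn1] at hr
    have hge := A_ge n r
    have hge' : (2 : ℝ) ^ ((Om n).filter (fun B => rk B = r)).card ≤ A n := by exact_mod_cast hge
    have h3 : (((Om n).filter (fun B => rk B = r)).card : ℝ) ≤ Real.logb 2 (A n) := by
      have := Real.logb_le_logb_of_le (by norm_num : (1 : ℝ) < 2) (by positivity) hge'
      rwa [Real.logb_pow, Real.logb_self_eq_one (by norm_num), mul_one] at this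
    have h0 : 0 ≤ Real.logb 2 (A n) := le_trans (Nat.cast_nonneg _) h3
    rw [Real.norm_of_nonneg h0, Real.norm_of_nonneg (by positivity)]
    linarith

end Pool.Agent.Results.MP_269158_co.ThetaOrder
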